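import Pool.Agent.Work.MP_01d39a_al.Ct.Fin

open MeasureTheory
open scoped ENNReal Pointwise

namespace Pool.Agent.Results.MP_01d39a_al.CostFive

/-- The action of `G` on `X` preserves the measure `μ` (in particular every element acts by a
Borel map) and is free. -/
def IsFreePmp (G : Type) [Group G] {X : Type} [MeasurableSpace X] [MulAction G X]
    (μ : Measure X) : Prop :=
  (∀ g : G, MeasurePreserving (fun x : X => g • x) μ μ) ∧ ∀ (g : G) (x : X), g • x = x → g = 1

/-- `Γ` is a Borel graph on `X` whose connected components are the orbits of `G`. -/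
def IsGraphing (G : Type) [Group G] {X : Type} [MeasurableSpace X] [MulAction G X]
    (Γ : SimpleGraph X) : Prop :=
  MeasurableSet {p : X × X | Γ.Adj p.1 p.2} ∧ ∀ x y, Γ.Reachable x y ↔ y ∈ MulAction.orbit G x

/-- The edge measure of a graph: half of the mean degree. -/
noncomputable def edgeMeasure {X : Type} [MeasurableSpace X] (μ : Measure X) (Γ : SimpleGraph X) :
    ℝ≥0∞ :=
  (∫⁻ x, ((Γ.neighborSet x).encard : ℝ≥0∞) ∂μ) / 2

/-- The cost of the orbit equivalence relation of an action. -/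
noncomputable def actionCost (G : Type) [Group G] {X : Type} [MeasurableSpace X] [MulAction G X]
    (μ : Measure X) : ℝ≥0∞ :=
  ⨅ (Γ : SimpleGraph X) (_ : IsGraphing G Γ), edgeMeasure μ Γ

/-- The cost of a group: the infimum over all free probability measure preserving actions on
standard probability spaces. -/
noncomputable def cost (G : Type) [Group G] : ℝ≥0∞ :=
  ⨅ (X : Type) (_ : MeasurableSpace X) (_ : StandardBorelSpace X) (_ : MulAction G X)
    (μ : Measure X) (_ : IsProbabilityMeasure μ) (_ : IsFreePmp G μ), actionCost G μ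

/-- The Tarski number of `G` is at most `N`: there is a paradoxical decomposition with
`m + n ≤ N` pieces. -/
def TarskiLE (G : Type) [Group G] (N : ℕ) : Prop :=
  ∃ (m n : ℕ) (A : Fin m → Set G) (B : Fin n → Set G) (g : Fin m → G) (h : Fin n → G),
    m + n ≤ N ∧ (∀ i j, i ≠ j → Disjoint (A i) (A j)) ∧ (∀ i j, i ≠ j → Disjoint (B i) (B j)) ∧
    (∀ i j, Disjoint (A i) (B j)) ∧ (⋃ i, g i • A i) = Set.univ ∧ (⋃ j, h j • B j) = Set.univ

theorem result (G : Type) [Group G] [Group.FG G] (a : G) (ha : ¬ IsOfFinOrder a)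
    (hc : 1 < cost G) : TarskiLE G 5 := by
  by_contra hn
  refine hc.not_ge (ENNReal.le_of_forall_pos_le_add fun δ hδ _ => ?_)
  obtain ⟨X, i1, i2, i3, μ, i4, h1, h2, Γ, h3, h4, h5⟩ :=
    Pool.Agent.Work.MP_01d39a_al.Ct.main_plain ha
      (fun ⟨A, B, g, h, H⟩ => hn ⟨2, 3, A, B, g, h, le_rfl, H⟩) (δ := δ) hδ
  rw [ENNReal.ofReal_coe_nnreal] at h5
  exact iInf_le_of_le X (iInf_le_of_le i1 (iInf_le_of_le i2 (iInf_le_of_le i3 (iInf_le_of_le μ
    (iInf_le_of_le i4 (iInf_le_of_le ⟨h1, h2⟩ (iInf₂_le_of_le Γ ⟨h3, h4⟩ h5)))))))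

end Pool.Agent.Results.MP_01d39a_al.CostFive
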